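import Pool.Agent.H51.MFL.S

/-!
# Board mfl: row EXD (the degree function on `U(L)[t]`)
-/

set_option autoImplicit false

open Module MvPolynomial

namespace Pool.MFL

open Pool.MFQ Pool.MFM

namespace Exd

/-- the coefficient of `t ^ i` -/
noncomputable def cf {σ R : Type} [CommRing R] (i : ℕ) (φ : MvPolynomial σ (Polynomial R)) :
    MvPolynomial σ R :=
  ∑ α ∈ φ.support, monomial α ((coeff α φ).coeff i)

lemma coeff_cf {σ R : Type} [CommRing R] (i : ℕ) (φ : MvPolynomial σ (Polynomial R))
    (α : σ →₀ ℕ) : coeff α (cf i φ) = (coeff α φ).coeff i := by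
  classical
  unfold cf
  rw [coeff_sum]
  simp only [coeff_monomial]
  rw [Finset.sum_ite_eq']
  split_ifs with h
  · rfl
  · rw [notMem_support_iff.1 h, Polynomial.coeff_zero]

/-- the restriction of `e` to constants -/
lemma ex_e0 {R L σ τ : Type} [CommRing R] [LieRing L] [LieAlgebra R L]
    (b : Basis (σ ⊕ τ) R L)
    (e : MvPolynomial σ (Polynomial R) →+* Polynomial (UniversalEnvelopingAlgebra R L))
    (he : IsEX b e) :
    ∃ e0 : MvPolynomial σ R →ₐ[R] UniversalEnvelopingAlgebra R L,
      (∀ l, e0 (X l) = UniversalEnvelopingAlgebra.ι R (b (Sum.inl l))) ∧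
      ∀ φ i, (e φ).coeff i = e0 (cf i φ) := by
  obtain ⟨e1, h1⟩ : ∃ e1 : MvPolynomial σ R →+* UniversalEnvelopingAlgebra R L,
      ∀ φ, e1 φ = (e (MvPolynomial.map Polynomial.C φ)).coeff 0 :=
    ⟨(Polynomial.constantCoeff.comp e).comp (MvPolynomial.map Polynomial.C), fun φ => rfl⟩
  have h2 : ∀ r : R, e1 (C r) = algebraMap R _ r := fun r => by
    rw [h1, map_C, he.hC, Polynomial.coeff_map, Polynomial.coeff_C_zero]
  obtain ⟨e0, h3⟩ : ∃ e0 : MvPolynomial σ R →ₐ[R] UniversalEnvelopingAlgebra R L,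
      ∀ φ, e0 φ = e1 φ := ⟨{ e1 with commutes' := h2 }, fun _ => rfl⟩
  have h4 : ∀ α : σ →₀ ℕ, e (monomial α 1) = Polynomial.C (e0 (monomial α 1)) := by
    intro α
    induction α using Finsupp.induction_linear with
    | zero =>
      have h5 : (monomial (0 : σ →₀ ℕ) (1 : R)) = 1 := rfl
      have h6 : (monomial (0 : σ →₀ ℕ) (1 : Polynomial R)) = 1 := rfl
      rw [h5, h6, map_one, map_one, map_one]
    | add s t hs ht =>
      have h5 : (monomial (s + t) (1 : R)) = monomial s 1 * monomial t 1 := by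
        rw [monomial_mul, one_mul]
      have h6 : (monomial (s + t) (1 : Polynomial R)) = monomial s 1 * monomial t 1 := by
        rw [monomial_mul, one_mul]
      rw [h5, h6, map_mul, map_mul, map_mul, hs, ht]
    | single l n =>
      have h5 : (monomial (Finsupp.single l n) (1 : R)) = X l ^ n := by
        rw [X_pow_eq_monomial]
      have h6 : (monomial (Finsupp.single l n) (1 : Polynomial R)) = X l ^ n := by
        rw [X_pow_eq_monomial]
      rw [h5, h6, map_pow, map_pow, map_pow, he.hX, h3, h1, map_X, he.hX,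
        Polynomial.coeff_C_zero]
  refine ⟨e0, fun l => ?_, fun φ i => ?_⟩
  · rw [h3, h1, map_X, he.hX, Polynomial.coeff_C_zero]
  · conv_lhs => rw [φ.as_sum]
    unfold cf
    rw [map_sum, map_sum, Polynomial.finsetSum_coeff]
    refine Finset.sum_congr rfl fun α _ => ?_
    have h5 : (monomial α (coeff α φ)) = C (coeff α φ) * monomial α 1 := by
      rw [C_mul_monomial, mul_one]
    have h6 : (monomial α ((coeff α φ).coeff i)) = C ((coeff α φ).coeff i) * monomial α 1 := by
      rw [C_mul_monomial, mul_one]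
    rw [h5, h6, map_mul, map_mul, he.hC, h4, Polynomial.coeff_mul_C, Polynomial.coeff_map]
    congr 1
    exact (e0.commutes _).symm

lemma pm_X {R L : Type} [CommRing R] [LieRing L] [LieAlgebra R L] {n : ℕ}
    (b : Basis (Fin n) R L) (i : Fin n) : pm b (X i) = UniversalEnvelopingAlgebra.ι R (b i) := by
  have h1 : (X i : MvPolynomial (Fin n) R) =
      MvPolynomial.basisMonomials (Fin n) R (Finsupp.single i 1) := by
    rw [coe_basisMonomials]
    rfl
  unfold pm
  rw [h1, Basis.constr_basis]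
  have h2 : (fun k => (Finsupp.single i 1 : Fin n →₀ ℕ) k) = 0 + Pi.single i 1 := by
    funext k
    rw [zero_add, Finsupp.single_eq_pi_single]
  have h3 := Ord.mo_head (fun i => UniversalEnvelopingAlgebra.ι R (b i)) i 0
    (fun _ _ => rfl)
  rw [Ord.mo_zero, mul_one, ← h2] at h3
  exact h3.symm

lemma deg_iff {σ R : Type} [CommRing R] (φ : MvPolynomial σ R) (d : ℤ) :
    (φ = 0 ∨ (φ.totalDegree : ℤ) ≤ d) ↔ ∀ α : σ →₀ ℕ, coeff α φ ≠ 0 → (α.degree : ℤ) ≤ d := by
  constructor
  · rintro (rfl | h) α hα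
    · exact absurd (coeff_zero α) hα
    · have h1 : α.degree ≤ φ.totalDegree := by
        have h2 := le_totalDegree (mem_support_iff.2 hα)
        exact h2
      exact le_trans (by exact_mod_cast h1) h
  · intro h
    rcases eq_or_ne φ 0 with h0 | h0
    · exact Or.inl h0
    · right
      obtain ⟨α, hα⟩ := support_nonempty.2 h0
      have hd : 0 ≤ d := le_trans (by positivity) (h α (mem_support_iff.1 hα))
      obtain ⟨n, rfl⟩ := Int.eq_ofNat_of_zero_le hd
      have h1 : φ.totalDegree ≤ n := by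
        refine Finset.sup_le fun s hs => ?_
        have h2 := h s (mem_support_iff.1 hs)
        have h3 : s.degree ≤ n := by exact_mod_cast h2
        exact h3
      exact_mod_cast h1

lemma degree_map {σ ρ : Type} (j : σ → ρ) (α : σ →₀ ℕ) :
    (α.mapDomain j).degree = α.degree := by
  induction α using Finsupp.induction_linear with
  | zero => rw [Finsupp.mapDomain_zero, map_zero, map_zero]
  | add s t hs ht => rw [Finsupp.mapDomain_add, map_add, map_add, hs, ht]
  | single l n => rw [Finsupp.mapDomain_single, Finsupp.degree_single, Finsupp.degree_single]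

end Exd

theorem t_exd (hPBR : PBRStmt) (hDGS : DGSStmt) (hDGX : DGXStmt) (hPAB : PABStmt) :
    EXDStmt := by
  intro κ L _ _ _ s q b N hAd e he
  obtain ⟨b', hb'⟩ : ∃ b' : Basis (Fin (s + q)) κ L, ∀ z, b' (finSumFinEquiv z) = b z :=
    ⟨b.reindex finSumFinEquiv, fun z => by
      rw [Basis.reindex_apply, Equiv.symm_apply_apply]⟩
  obtain ⟨δ₀, hδ₀⟩ := hDGS κ L (s + q) b'
  have hsur := (hPBR κ L (s + q) b').2
  have hneg : ∀ (u : UniversalEnvelopingAlgebra κ L) (d : ℤ), d < 0 → u ∈ δ₀.F d → u = 0 := by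
    intro u d hd hu
    obtain ⟨f, rfl⟩ := hsur u
    rcases (hδ₀ d f).1 hu with h | h
    · rw [h, map_zero]
    · have : (0 : ℤ) ≤ f.totalDegree := by positivity
      omega
  obtain ⟨δ, hδ⟩ := hDGX (UniversalEnvelopingAlgebra κ L) δ₀ (fun u => by
    obtain ⟨f, rfl⟩ := hsur u
    exact ⟨f.totalDegree, (hδ₀ _ _).2 (Or.inr le_rfl)⟩) (fun u hu =>
    ⟨-1, fun h => hu (hneg u (-1) (by norm_num) h)⟩) N
  obtain ⟨e0, he0X, he0⟩ := Exd.ex_e0 b e he
  have hinj : Function.Injective fun l : Fin s => finSumFinEquiv (Sum.inl l : Fin s ⊕ Fin q) :=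
    fun l m h => Sum.inl_injective (finSumFinEquiv.injective h)
  have hren := hPAB κ L (Fin s) (s + q) b' (fun l => finSumFinEquiv (Sum.inl l)) hinj
    (fun l m => by
      rw [hb', hb']
      refine b.repr.injective ?_
      rw [map_zero]
      ext k
      exact hAd.ab l m k) e0 (fun l => by rw [hb', he0X])
  refine ⟨δ, fun d φ => ?_, fun z => ?_, fun k m u hk hu => ?_⟩
  · rw [hδ]
    constructor
    · intro h α i hα
      have h1 := h i
      rw [he0, hren, hδ₀, Exd.deg_iff] at h1
      have h2 := h1 (α.mapDomain fun l => finSumFinEquiv (Sum.inl l))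
        (by rwa [coeff_rename_mapDomain _ hinj, Exd.coeff_cf])
      rwa [Exd.degree_map] at h2
    · intro h i
      rw [he0, hren, hδ₀, Exd.deg_iff]
      intro β hβ
      obtain ⟨α, rfl, hα⟩ := coeff_rename_ne_zero _ _ _ hβ
      rw [Exd.degree_map]
      rw [Exd.coeff_cf] at hα
      exact h α i hα
  · rw [hδ]
    intro i
    rcases Nat.eq_zero_or_pos i with rfl | hi
    · rw [Polynomial.coeff_C_zero, ← hb' z, ← Exd.pm_X b', hδ₀]
      right
      rw [totalDegree_X]
      norm_num
    · rw [Polynomial.coeff_C_of_ne_zero hi.ne']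
      exact zero_mem _
  · have h1 : Polynomial.X ^ m ∣ u := by
      rw [Polynomial.X_pow_dvd_iff]
      intro i hi
      refine hneg _ _ ?_ ((hδ _ _).1 hu i)
      have h2 : (i : ℤ) + 1 ≤ m := by exact_mod_cast hi
      have h3 : (k : ℤ) < N := by exact_mod_cast hk
      nlinarith
    exact h1

end Pool.MFL
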