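import Pool.Agent.H26.MFL.EXD
import Pool.Agent.H50.MFQ.SYT

/-!
# Board mfl: row SYX (symbols of families)
-/

set_option autoImplicit false

open Module MvPolynomial

namespace Pool.MFL

open Pool.MFQ Pool.MFM

namespace Syx

variable {L : Type} [LieRing L] [LieAlgebra ℂ L]

/-- all coefficients have the given symbols -/
def HS (k : ℕ) (u : Polynomial (UniversalEnvelopingAlgebra ℂ L))
    (G : Dual ℂ L → Polynomial ℂ) : Prop :=
  ∀ i : ℕ, HasSym k (u.coeff i) (fun ξ => (G ξ).coeff i)

lemma hs_congr {k k' : ℕ} {u u' : Polynomial (UniversalEnvelopingAlgebra ℂ L)}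
    {G G' : Dual ℂ L → Polynomial ℂ} (h : HS k u G) (hk : k = k') (hu : u = u')
    (hG : ∀ ξ, G ξ = G' ξ) : HS k' u' G' := by
  have hG' : G = G' := funext hG
  subst hk hu hG'
  exact h

lemma hs_add {k : ℕ} {u v : Polynomial (UniversalEnvelopingAlgebra ℂ L)}
    {G H : Dual ℂ L → Polynomial ℂ} (hu : HS k u G) (hv : HS k v H) :
    HS k (u + v) (fun ξ => G ξ + H ξ) := by
  intro i
  refine Sy.hs_congr (Sy.hs_add (hu i) (hv i)) rfl ?_ ?_
  · rw [Polynomial.coeff_add]
  · funext ξ
    rw [Pi.add_apply, Polynomial.coeff_add]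

lemma hs_zero (k : ℕ) : HS k (0 : Polynomial (UniversalEnvelopingAlgebra ℂ L)) (fun _ => 0) := by
  intro i
  refine Sy.hs_congr (Sy.hs_zero k) rfl ?_ ?_
  · rw [Polynomial.coeff_zero]
  · funext ξ
    rw [Pi.zero_apply, Polynomial.coeff_zero]

lemma hs_sum {k : ℕ} {I : Type} (s : Finset I)
    (u : I → Polynomial (UniversalEnvelopingAlgebra ℂ L)) (G : I → Dual ℂ L → Polynomial ℂ)
    (h : ∀ i ∈ s, HS k (u i) (G i)) : HS k (∑ i ∈ s, u i) (fun ξ => ∑ i ∈ s, G i ξ) := by
  classical
  induction s using Finset.induction_on with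
  | empty => exact hs_congr (hs_zero k) rfl Finset.sum_empty.symm fun ξ => Finset.sum_empty.symm
  | insert i s hi ih =>
    refine hs_congr (hs_add (h i (Finset.mem_insert_self i s))
      (ih fun j hj => h j (Finset.mem_insert_of_mem hj))) rfl (Finset.sum_insert hi).symm
      fun ξ => (Finset.sum_insert hi).symm

lemma hs_mul {k l : ℕ} {u v : Polynomial (UniversalEnvelopingAlgebra ℂ L)}
    {G H : Dual ℂ L → Polynomial ℂ} (hu : HS k u G) (hv : HS l v H) :
    HS (k + l) (u * v) (fun ξ => G ξ * H ξ) := by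
  intro i
  refine Sy.hs_congr (Sy.hs_sum (Finset.HasAntidiagonal.antidiagonal i)
    (fun p => u.coeff p.1 * v.coeff p.2)
    (fun p => (fun ξ => (G ξ).coeff p.1) * fun ξ => (H ξ).coeff p.2)
    fun p _ => Sy.hs_mul (hu p.1) (hv p.2)) rfl ?_ ?_
  · rw [Polynomial.coeff_mul]
  · funext ξ
    rw [Finset.sum_apply, Polynomial.coeff_mul]
    rfl

lemma hs_const (f : Polynomial ℂ) :
    HS 0 (f.map (algebraMap ℂ (UniversalEnvelopingAlgebra ℂ L))) (fun _ => f) := by
  intro i
  refine Sy.hs_congr (Sy.hs_smul (f.coeff i) Sy.hs_one) rfl ?_ ?_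
  · rw [Polynomial.coeff_map, Algebra.algebraMap_eq_smul_one]
  · funext ξ
    rw [Pi.smul_apply, Pi.one_apply, smul_eq_mul, mul_one]

lemma hs_C {k : ℕ} {u : UniversalEnvelopingAlgebra ℂ L} {g : Dual ℂ L → ℂ}
    (h : HasSym k u g) : HS k (Polynomial.C u) (fun ξ => Polynomial.C (g ξ)) := by
  intro i
  rcases Nat.eq_zero_or_pos i with rfl | hi
  · refine Sy.hs_congr h rfl ?_ ?_
    · rw [Polynomial.coeff_C_zero]
    · funext ξ
      rw [Polynomial.coeff_C_zero]
  · refine Sy.hs_congr (Sy.hs_zero k) rfl ?_ ?_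
    · rw [Polynomial.coeff_C_of_ne_zero hi.ne']
    · funext ξ
      rw [Polynomial.coeff_C_of_ne_zero hi.ne', Pi.zero_apply]

lemma hs_one : HS 0 (1 : Polynomial (UniversalEnvelopingAlgebra ℂ L)) (fun _ => 1) :=
  hs_congr (hs_C Sy.hs_one) rfl Polynomial.C_1 fun _ => by rw [Pi.one_apply, Polynomial.C_1]

/-- polynomials in elements with symbols -/
lemma hs_monomial {J : Type} (ev : MvPolynomial J (Polynomial ℂ) →+*
    Polynomial (UniversalEnvelopingAlgebra ℂ L)) (G : J → Dual ℂ L → Polynomial ℂ) (d : J → ℕ)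
    (h : ∀ j, HS (d j) (ev (X j)) (G j)) (α : J →₀ ℕ) :
    HS (Finsupp.weight d α) (ev (monomial α 1))
      (fun ξ => eval (fun j => G j ξ) (monomial α 1)) := by
  induction α using Finsupp.induction_linear with
  | zero =>
    refine hs_congr hs_one (by rw [map_zero]) ?_ fun ξ => ?_
    · exact (map_one ev).symm
    · exact (map_one (eval fun j => G j ξ)).symm
  | add s t hs ht =>
    refine hs_congr (hs_mul hs ht) (by rw [map_add]) ?_ fun ξ => ?_
    · rw [← map_mul, monomial_mul, one_mul]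
    · rw [← map_mul, monomial_mul, one_mul]
  | single l n =>
    induction n with
    | zero =>
      refine hs_congr hs_one ?_ ?_ fun ξ => ?_
      · rw [Finsupp.single_zero, map_zero]
      · rw [Finsupp.single_zero]
        exact (map_one ev).symm
      · rw [Finsupp.single_zero]
        exact (map_one (eval fun j => G j ξ)).symm
    | succ n ih =>
      have h1 : (monomial (Finsupp.single l (n + 1)) (1 : Polynomial ℂ)) =
          monomial (Finsupp.single l n) 1 * X l := by
        rw [X, monomial_mul, one_mul, Finsupp.single_add]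
      refine hs_congr (hs_mul ih (h l)) ?_ ?_ fun ξ => ?_
      · rw [Finsupp.single_add, map_add]
        congr 1
        rw [Finsupp.weight_single, one_smul]
      · rw [h1, map_mul]
      · rw [h1, map_mul, eval_X]

lemma hs_poly {J : Type} (ev : MvPolynomial J (Polynomial ℂ) →+*
    Polynomial (UniversalEnvelopingAlgebra ℂ L))
    (hC : ∀ f : Polynomial ℂ, ev (C f) = f.map (algebraMap ℂ (UniversalEnvelopingAlgebra ℂ L)))
    (G : J → Dual ℂ L → Polynomial ℂ) (d : J → ℕ)
    (h : ∀ j, HS (d j) (ev (X j)) (G j)) (k : ℕ) (F : MvPolynomial J (Polynomial ℂ))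
    (hF : F.IsWeightedHomogeneous d k) : HS k (ev F) (fun ξ => eval (fun j => G j ξ) F) := by
  have h1 : F = ∑ α ∈ F.support, C (coeff α F) * monomial α 1 := by
    conv_lhs => rw [F.as_sum]
    refine Finset.sum_congr rfl fun α _ => ?_
    rw [C_mul_monomial, mul_one]
  have h2 := hs_sum F.support (fun α => ev (C (coeff α F) * monomial α 1))
    (fun α ξ => eval (fun j => G j ξ) (C (coeff α F) * monomial α 1)) (k := k) fun α hα => by
      refine hs_congr (hs_mul (hs_const (coeff α F)) (hs_monomial ev G d h α)) ?_ ?_ fun ξ => ?_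
      · rw [zero_add]
        exact hF (mem_support_iff.1 hα)
      · rw [map_mul, hC]
      · rw [map_mul, eval_C]
  refine hs_congr h2 rfl ?_ fun ξ => ?_
  · rw [← map_sum, ← h1]
  · rw [← map_sum, ← h1]

end Syx

theorem t_syx : SYXStmt := by
  intro L J _ _ s q b _ P d k hd hP e he ev hev F hF
  have hy : ∀ z, Syx.HS 1 (Polynomial.C (UniversalEnvelopingAlgebra.ι ℂ (b z)))
      (fun ξ => Polynomial.C (ξ (b z))) := fun z => Syx.hs_C (Sy.hs_iota (b z))
  have h1 : ∀ (m : ℕ) (φ : MvPolynomial (Fin s) (Polynomial ℂ)), φ.IsHomogeneous m →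
      Syx.HS m (e φ) (fun ξ => eval (fun l => Polynomial.C (ξ (b (Sum.inl l)))) φ) := by
    intro m φ hφ
    exact Syx.hs_poly e he.hC (fun l ξ => Polynomial.C (ξ (b (Sum.inl l)))) 1
      (fun l => Syx.hs_congr (hy (Sum.inl l)) rfl (he.hX l).symm fun _ => rfl) m φ hφ
  have h2 : ∀ j, Syx.HS (d j) (ev (X j))
      (fun ξ => eval (fun z => Polynomial.C (ξ (b z))) (iLR (P j))) := by
    intro j
    have h3 := Syx.hs_sum (Finset.univ : Finset (Fin q))
      (fun i => e ((P j).2 i) * Polynomial.C (UniversalEnvelopingAlgebra.ι ℂ (b (Sum.inr i))))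
      (fun i ξ => eval (fun l => Polynomial.C (ξ (b (Sum.inl l)))) ((P j).2 i) *
        Polynomial.C (ξ (b (Sum.inr i)))) (k := d j) fun i _ =>
        Syx.hs_congr (Syx.hs_mul (h1 _ _ ((hP j).2 i)) (hy (Sum.inr i)))
          (Nat.sub_add_cancel (hd j)) rfl fun _ => rfl
    refine Syx.hs_congr (Syx.hs_add (h1 _ _ (hP j).1) h3) rfl ?_ fun ξ => ?_
    · rw [hev.hX]
      rfl
    · unfold iLR
      rw [map_add, map_sum, eval_rename]
      congr 1
      refine Finset.sum_congr rfl fun i _ => ?_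
      rw [map_mul, eval_rename, eval_X]
      rfl
  have h3 := Syx.hs_poly ev hev.hC _ d h2 k F hF
  intro i
  refine Sy.hs_congr (h3 i) rfl rfl ?_
  funext ξ
  congr 1
  have h4 : (eval fun z => Polynomial.C (ξ (b z))).comp
      (aeval (R := Polynomial ℂ) (fun j => iLR (P j))).toRingHom =
      eval (fun j => eval (fun z => Polynomial.C (ξ (b z))) (iLR (P j))) := by
    refine ringHom_ext (fun r => ?_) fun j => ?_
    · simp
    · simp
  exact (RingHom.congr_fun h4 F).symm

end Pool.MFL
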